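import Pool.Agent.N513.CE.Stm2

/-!
# Project CE, FINQ: finiteness of the big group over finite data
-/

set_option autoImplicit false

namespace Pool.Agent.N264.CE

open Pool.Agent.N513.CE

theorem fin_ma (k G : Type) [Semiring k] [Finite k] [Finite G] : Finite (MonoidAlgebra k G) := by
  have : Finite (G →₀ k) := Finite.of_injective (fun f : G →₀ k => (f : G → k))
    DFunLike.coe_injective
  exact Finite.of_injective (fun f : MonoidAlgebra k G => f.coeff) fun f g h => by
    cases f; cases g; congr

theorem fin_hall (C D : Type) [CommRing C] [Group D] [Finite C] [Finite D] :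
    Finite (Hall C D) := by
  have := fin_ma C D
  refine Finite.of_injective (fun x : Hall C D => (x.U, x.V, x.W, x.h)) ?_
  intro x y h
  simp only [Prod.mk.injEq] at h
  obtain ⟨h1, h2, h3, h4⟩ := h
  exact Hall.ext h1 h2 h3 h4

theorem t_FINQ : S_FINQ := by
  intro q C D _ _ _ _ hq
  have : NeZero q := ⟨hq⟩
  have : Finite (ZMod q) := inferInstance
  have := fin_hall C D
  have : Finite (AA q C D) := fin_ma (ZMod q) (Hall C D)
  have : Finite (Matrix (Fin 3) (Fin 3) (AA q C D)) :=
    inferInstanceAs (Finite (Fin 3 → Fin 3 → AA q C D))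
  have : Finite (Matrix (Fin 3) (Fin 3) (AA q C D))ˣ :=
    Finite.of_injective (Units.val : (Matrix (Fin 3) (Fin 3) (AA q C D))ˣ → _)
      Units.val_injective
  have : Finite (Pool.Agent.N44.NS.E3 (AA q C D)) := inferInstance
  refine Finite.of_injective (fun x : PH q C D => (x.left, x.right)) ?_
  intro x y h
  simp only [Prod.mk.injEq] at h
  exact SemidirectProduct.ext h.1 h.2

end Pool.Agent.N264.CE
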